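import Pool.Agent.H583.SF.Shifts

/-!
# Oesterlé's inequality for products of shifted integers, at all heights

For the numbers `F (n) = (n + d_1) ⋯ (n + d_k)` with `k ≥ 2` different integers `d_i`, for instance
for the products of `k` consecutive integers: for every `ε > 0` there is an exponent `M` such that at
most `C X ^ (1 / (2 k) + ε)` integers `n` with `rad F (n) ≤ X`, of any size, violate
`|n| < rad (F (n)) ^ M`. (For `k = 2` and `F (n) = n (n + 1)`, that is for the abc triples
`1 + n = n + 1`, this is in the starting library.)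

Proof: one of the `k` factors has a radical at most `X ^ (1 / k)`; together with a second one and
their difference, one of finitely many numbers, it forms an abc triple, after division by a bounded
number, and the exceptional triples two members of which have radicals at most `R₁`, `R₂` are at most
`C X ^ ε √(R₁ R₂)` in number (library).
-/

set_option autoImplicit false

namespace Pool.Agent.Results.MP_2ec8a3_nt.ShiftedIntegers

/-- the product of the primes dividing the integer `n` -/
def radical (n : ℤ) : ℕ := ∏ p ∈ n.natAbs.primeFactors, p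

/-- the integers `n` with `F (n) = (n + d_1) ⋯ (n + d_k) ≠ 0` and `rad (F (n)) ≤ X` which violate
`|n| < rad (F (n)) ^ M`; there is no restriction on the size of `n` -/
def exceptions {k : ℕ} (d : Fin k → ℤ) (M X : ℕ) : Set ℤ :=
  {n | ∏ i, (n + d i) ≠ 0 ∧ radical (∏ i, (n + d i)) ≤ X ∧
    radical (∏ i, (n + d i)) ^ M ≤ n.natAbs}

/-- a bound for all finite subsets is a bound for the set -/
theorem of_bound {α : Type*} {S : Set α} {B : ℝ}
    (hB : ∀ Q : Finset α, (∀ q ∈ Q, q ∈ S) → (Q.card : ℝ) ≤ B) :
    S.Finite ∧ (S.ncard : ℝ) ≤ B := by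
  have hf : S.Finite := by
    by_contra hcon
    obtain ⟨t, ht, hc⟩ := Set.Infinite.exists_subset_card_eq hcon (⌊B⌋₊ + 1)
    have h1 := hB t fun q hq => ht (Finset.mem_coe.2 hq)
    rw [hc] at h1
    have h2 := Nat.lt_floor_add_one B
    push_cast at h1
    linarith
  refine ⟨hf, ?_⟩
  rw [Set.ncard_eq_toFinset_card S hf]
  exact hB _ fun q hq => hf.mem_toFinset.mp hq

/-- **Oesterlé's inequality for products of shifted integers.** Let `d` be `k ≥ 2` different
integers. For every `ε > 0` there are `M` and `C` such that for all `X ≥ 1` at most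
`C X ^ (1 / (2 k) + ε)` integers `n` with `∏ i, (n + d i) ≠ 0` and `rad (∏ i, (n + d i)) ≤ X`, of any
size, violate `|n| < rad (∏ i, (n + d i)) ^ M`. -/
theorem result : ∀ k : ℕ, 2 ≤ k → ∀ d : Fin k → ℤ, Function.Injective d →
    ∀ ε : ℝ, 0 < ε → ∃ M : ℕ, ∃ C : ℝ, 0 < C ∧ ∀ X : ℕ, 1 ≤ X → (exceptions d M X).Finite ∧
      ((exceptions d M X).ncard : ℝ) ≤ C * (X : ℝ) ^ (1 / (2 * (k : ℝ)) + ε) := by
  intro k hk d hd ε hε
  obtain ⟨M, m, C, -, hC, h⟩ := Pool.Agent.H583.SF.shifts_fam k hk d hd ε hε
  refine ⟨M, C, hC, fun X hX => of_bound fun Q hQ => ?_⟩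
  have h1 := h X hX (fun _ => True) 1 1 Pool.Agent.T2H20.AH.fml_all Q (by
    intro p hp
    obtain ⟨p2, p3, p4⟩ := hQ p hp
    exact ⟨p2, p3, p4, trivial⟩)
  rwa [one_pow, mul_one] at h1

end Pool.Agent.Results.MP_2ec8a3_nt.ShiftedIntegers
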